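import Mathlib
import Pool.Agent.W708.PA

set_option autoImplicit false
open Filter Topology

namespace Pool.Agent.Results.MP_e9a5f2_an.ConditionalPropertyA

section Definitions

variable {𝕜 : Type} [RCLike 𝕜] {X : Type} [NormedAddCommGroup X] [NormedSpace 𝕜 X]

/-- `(e n)` is a semi-normalized Markushevich basis of `X` with biorthogonal functionals `(f n)`. -/
structure IsBasis (e : ℕ → X) (f : ℕ → X →L[𝕜] 𝕜) : Prop where
  biorthogonal : ∀ k n, f k (e n) = if k = n then 1 else 0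
  dense_span : Dense (Submodule.span 𝕜 (Set.range e) : Set X)
  total : ∀ x : X, (∀ n, f n x = 0) → x = 0
  bounded : ∃ C : ℝ, ∀ n, ‖e n‖ ≤ C ∧ ‖f n‖ ≤ C

/-- Property (A): `‖x + 1_{εA}‖ = ‖x + 1_{ηB}‖` whenever all coefficients of `x` have modulus at
most `1`, `|A| = |B|`, the sets `A`, `B`, `supp x` are pairwise disjoint and `ε`, `η` are families
of unimodular scalars. -/
def PropertyA (e : ℕ → X) (f : ℕ → X →L[𝕜] 𝕜) : Prop :=
  ∀ (x : X) (A B : Finset ℕ) (ε η : ℕ → 𝕜), (∀ n, ‖f n x‖ ≤ 1) → A.card = B.card →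
    Disjoint A B → (∀ n ∈ A ∪ B, f n x = 0) → (∀ n, ‖ε n‖ = 1) → (∀ n, ‖η n‖ = 1) →
    ‖x + ∑ n ∈ A, ε n • e n‖ = ‖x + ∑ n ∈ B, η n • e n‖

/-- The basis is unconditional: `∑ f n x • e n` converges unconditionally to `x` for every `x`. -/
def IsUnconditional (e : ℕ → X) (f : ℕ → X →L[𝕜] 𝕜) : Prop :=
  ∀ x : X, HasSum (fun n => f n x • e n) x

/-- The basis is a monotone Schauder basis: the partial sums converge to `x` and their norms are
at most `‖x‖`. -/
def IsMonotoneSchauder (e : ℕ → X) (f : ℕ → X →L[𝕜] 𝕜) : Prop :=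
  ∀ x : X, Tendsto (fun N => ∑ n ∈ Finset.range N, f n x • e n) atTop (𝓝 x) ∧
    ∀ N, ‖∑ n ∈ Finset.range N, f n x • e n‖ ≤ ‖x‖

end Definitions

/-- Over both scalar fields there is a Banach space with a basis which has Property (A), is even a
monotone Schauder basis, and is not unconditional. -/
theorem result (𝕜 : Type) [RCLike 𝕜] :
    ∃ (X : Type) (_ : NormedAddCommGroup X) (_ : NormedSpace 𝕜 X) (_ : CompleteSpace X)
      (e : ℕ → X) (f : ℕ → X →L[𝕜] 𝕜),
      IsBasis e f ∧ PropertyA e f ∧ IsMonotoneSchauder e f ∧ ¬ IsUnconditional e f := by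
  refine ⟨W708.PA.E 𝕜, inferInstance, inferInstance, inferInstance, W708.PA.e, W708.PA.f,
    ⟨?_, ?_, ?_, ⟨4, fun n => ⟨W708.PA.norm_e n, (W708.PA.norm_f n).trans (by norm_num)⟩⟩⟩,
    ?_, fun x => ⟨W708.PA.schauder x, W708.PA.monotone_sum x⟩, W708.PA.not_uncond⟩
  · intro k n
    rw [W708.PA.f_apply, W708.PA.seq_e]
  · intro x
    refine mem_closure_of_tendsto (W708.PA.schauder x) (Eventually.of_forall fun N => ?_)
    exact Submodule.sum_mem _ fun n _ => Submodule.smul_mem _ _ (Submodule.subset_span ⟨n, rfl⟩)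
  · intro x hx
    apply W708.PA.seq_inj
    intro n
    exact hx n
  · intro x A B ε η hx hAB hd h0 hε hη
    refine le_antisymm (W708.PA.propA x A B ε η hx hAB hd h0 hε hη)
      (W708.PA.propA x B A η ε hx hAB.symm hd.symm ?_ hη hε)
    intro n hn
    exact h0 n (by rwa [Finset.union_comm])

end Pool.Agent.Results.MP_e9a5f2_an.ConditionalPropertyA
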